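import Pool.Agent.Helper58.QD.StG

/-! # Project QD, module Cov: coverings of annuli by boundedly many balls -/

set_option autoImplicit false

namespace Pool.Agent.Helper86.QD

open Helper62.LH Helper62.DSH Helper58.QD MeasureTheory Set Filter Topology
open scoped ContDiff ENNReal

private theorem pack_Cov {n : ℕ} {g : E n → Bl n} (hsym : ∀ x y, dg g x y = dg g y x)
    (htri : ∀ x y z, dg g x z ≤ dg g x y + dg g y z)
    (hop : ∀ x r, IsOpen (Ba g x r)) (hfin : ∀ x r, mg g (Ba g x r) ≠ ⊤)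
    (Z : Finset (E n)) (y : E n) (s T M : ℝ) (hM0 : 0 ≤ M) (hpos : 0 < vb g y T)
    (hsep : ∀ z ∈ Z, ∀ z' ∈ Z, z ≠ z' → 2 * s ≤ dg g z z')
    (hin : ∀ z ∈ Z, Ba g z s ⊆ Ba g y T) (hM : ∀ z ∈ Z, vb g y T ≤ M * vb g z s) :
    (Z.card : ℝ) ≤ M := by
  have hdis : (Z : Set (E n)).PairwiseDisjoint (fun z => Ba g z s) := by
    intro z hz z' hz' hne
    refine Set.disjoint_left.2 ?_
    intro w hw hw'
    have h1 : dg g z w < s := hw
    have h2 : dg g z' w < s := hw'
    have h3 := htri z w z'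
    rw [hsym w z'] at h3
    have h4 := hsep z hz z' hz' hne
    linarith
  have hsum : ∑ z ∈ Z, vb g z s ≤ vb g y T := by
    have h1 : mg g (⋃ z ∈ Z, Ba g z s) = ∑ z ∈ Z, mg g (Ba g z s) :=
      measure_biUnion_finset hdis (fun z _ => (hop z s).measurableSet)
    have h2 : mg g (⋃ z ∈ Z, Ba g z s) ≤ mg g (Ba g y T) := measure_mono (Set.iUnion₂_subset hin)
    rw [h1] at h2
    unfold vb
    rw [← ENNReal.toReal_sum (fun z _ => hfin z s)]
    exact ENNReal.toReal_mono (hfin y T) h2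
  have h3 : (Z.card : ℝ) * vb g y T ≤ M * vb g y T := by
    calc (Z.card : ℝ) * vb g y T = ∑ z ∈ Z, vb g y T := by rw [Finset.sum_const, nsmul_eq_mul]
      _ ≤ ∑ z ∈ Z, M * vb g z s := Finset.sum_le_sum hM
      _ = M * ∑ z ∈ Z, vb g z s := by rw [Finset.mul_sum]
      _ ≤ M * vb g y T := mul_le_mul_of_nonneg_left hsum hM0
  exact le_of_mul_le_mul_right h3 hpos

theorem hCov : StMet → SBal → SBgv → SGrw → SCov := by
  intro hMet hBal hBgv hGrw n g Γ hg hΓ hC hS p b β κ r0 hB hL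
  obtain ⟨-, -, hd0, hdx, hsym, htri⟩ := hMet n g hg
  have bal := hBal n g Γ hg hΓ hC
  obtain ⟨-, hv2, hv3⟩ := hBgv n g Γ hg hΓ hC hS
  obtain ⟨-, -, R0, hR1, hgr⟩ := hGrw n g Γ hg p b β κ r0 hB hL
  have hop : ∀ x r, IsOpen (Ba g x r) := fun x => (bal x).1
  have hfin : ∀ x r, mg g (Ba g x r) ≠ ⊤ := fun x => (bal x).2.1
  have hvp : ∀ x r, 0 < r → 0 < vb g x r := fun x => (bal x).2.2.1
  have hvm : ∀ x r s, r ≤ s → vb g x r ≤ vb g x s := fun x => (bal x).2.2.2.2
  have hκ := hB.kpos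
  refine ⟨R0, hR1, ?_⟩
  intro δ hδ hδ1
  set c : ℝ := 32 / κ + 1 with hc
  have hc1 : 1 ≤ c := by
    have : 0 < 32 / κ := by positivity
    linarith
  refine ⟨⌊(6 * c / δ) ^ n⌋₊, ?_⟩
  intro R hR
  have hRpos : 0 < R := by linarith
  have hδR : 0 < δ * R := mul_pos hδ hRpos
  have hδR1 : δ * R ≤ R := by nlinarith
  -- distances from `p`
  have hdp : ∀ z ∈ An β R (16 * R), dg g p z ≤ c * R := by
    rintro z ⟨h1, h2⟩
    have h3 := (hgr z (hR.trans h1)).1
    have h4 : κ / 2 * dg g p z ≤ 16 * R := h3.trans h2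
    have h5 : dg g p z ≤ 32 / κ * R := by
      rw [div_mul_eq_mul_div, le_div_iff₀ hκ]
      linarith
    have h6 : c * R = 32 / κ * R + R := by rw [hc]; ring
    linarith
  have hcR : R ≤ c * R := by nlinarith
  have hcpos : 0 < c * R := by linarith
  -- bound for separated sets
  have hbd : ∀ Z : Finset (E n), (∀ z ∈ Z, z ∈ An β R (16 * R)) →
      (∀ z ∈ Z, ∀ z' ∈ Z, z ≠ z' → δ * R ≤ dg g z z') → Z.card ≤ ⌊(6 * c / δ) ^ n⌋₊ := by
    intro Z hZ hsep
    refine Nat.le_floor ?_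
    refine pack_Cov hsym htri hop hfin Z p (δ * R / 2) (2 * (c * R)) _ (by positivity)
      (hvp _ _ (by linarith)) ?_ ?_ ?_
    · intro z hz z' hz' hne
      have := hsep z hz z' hz' hne
      linarith
    · intro z hz w hw
      have h1 : dg g z w < δ * R / 2 := hw
      have h2 := htri p z w
      have h3 := hdp z (hZ z hz)
      show dg g p w < 2 * (c * R)
      linarith
    · intro z hz
      have h3 := hdp z (hZ z hz)
      have h4 := hv3 p z (2 * (c * R))
      have h5 := hvm z _ (3 * (c * R)) (show 2 * (c * R) + dg g p z ≤ 3 * (c * R) by linarith)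
      have ht0 : 0 < δ / (6 * c) := by positivity
      have ht1 : δ / (6 * c) ≤ 1 := by
        rw [div_le_one (by positivity)]
        linarith
      have h6 := hv2 z (3 * (c * R)) (δ / (6 * c)) ht0 ht1
      have h7 : δ / (6 * c) * (3 * (c * R)) = δ * R / 2 := by
        have : c ≠ 0 := by positivity
        field_simp
        ring
      have h8 : 1 / (δ / (6 * c)) = 6 * c / δ := by rw [one_div_div]
      rw [h7, h8] at h6
      exact (h4.trans h5).trans h6
  -- a maximal separated set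
  classical
  let Q : ℕ → Prop := fun m => ∃ Z : Finset (E n), (∀ z ∈ Z, z ∈ An β R (16 * R)) ∧
    (∀ z ∈ Z, ∀ z' ∈ Z, z ≠ z' → δ * R ≤ dg g z z') ∧ Z.card = m
  have hQ0 : Q 0 := ⟨∅, by simp, by simp, rfl⟩
  have hQm : Q (Nat.findGreatest Q ⌊(6 * c / δ) ^ n⌋₊) := Nat.findGreatest_spec (Nat.zero_le _) hQ0
  obtain ⟨Z, hZ, hsep, hcard⟩ := hQm
  refine ⟨Z, hbd Z hZ hsep, hZ, ?_, ?_⟩
  · intro y hy
    by_contra hno
    push Not at hno
    have hyZ : y ∉ Z := by
      intro h
      have := hno y h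
      rw [hdx] at this
      linarith
    have h1 : ∀ z ∈ insert y Z, z ∈ An β R (16 * R) := by
      intro z hz
      rcases Finset.mem_insert.1 hz with rfl | hz
      · exact hy
      · exact hZ z hz
    have h2 : ∀ z ∈ insert y Z, ∀ z' ∈ insert y Z, z ≠ z' → δ * R ≤ dg g z z' := by
      intro z hz z' hz' hne
      rcases Finset.mem_insert.1 hz with hzy | hzZ
      · rcases Finset.mem_insert.1 hz' with hzy' | hzZ'
        · exact absurd (hzy.trans hzy'.symm) hne
        · rw [hzy, hsym]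
          exact hno z' hzZ'
      · rcases Finset.mem_insert.1 hz' with hzy' | hzZ'
        · rw [hzy']
          exact hno z hzZ
        · exact hsep z hzZ z' hzZ' hne
    have h3 : (insert y Z).card = Nat.findGreatest Q ⌊(6 * c / δ) ^ n⌋₊ + 1 := by
      rw [Finset.card_insert_of_notMem hyZ, hcard]
    have h4 := hbd _ h1 h2
    rw [h3] at h4
    have h5 : Q (Nat.findGreatest Q ⌊(6 * c / δ) ^ n⌋₊ + 1) := ⟨_, h1, h2, h3⟩
    have h6 := Nat.le_findGreatest h4 h5
    omega
  · intro y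
    have h := pack_Cov hsym htri hop hfin (Z.filter (fun z => dg g z y < 3 * (δ * R))) y
      (δ * R / 2) (4 * (δ * R)) ((14 : ℝ) ^ n) (by positivity) (hvp _ _ (by linarith)) ?_ ?_ ?_
    · exact_mod_cast h
    · intro z hz z' hz' hne
      have := hsep z (Finset.mem_filter.1 hz).1 z' (Finset.mem_filter.1 hz').1 hne
      linarith
    · intro z hz w hw
      have h1 : dg g z w < δ * R / 2 := hw
      have h2 := htri y z w
      have h3 := (Finset.mem_filter.1 hz).2
      rw [hsym] at h3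
      show dg g y w < 4 * (δ * R)
      linarith
    · intro z hz
      have h3 := (Finset.mem_filter.1 hz).2
      rw [hsym] at h3
      have h4 := hv3 y z (4 * (δ * R))
      have h5 := hvm z _ (7 * (δ * R)) (show 4 * (δ * R) + dg g y z ≤ 7 * (δ * R) by linarith)
      have h6 := hv2 z (7 * (δ * R)) (1 / 14) (by norm_num) (by norm_num)
      have h7 : (1 / 14 : ℝ) * (7 * (δ * R)) = δ * R / 2 := by ring
      have h8 : (1 : ℝ) / (1 / 14) = 14 := by norm_num
      rw [h7, h8] at h6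
      exact (h4.trans h5).trans h6

end Pool.Agent.Helper86.QD
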