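import Pool.Agent.Helper58.QD.StM

/-! # Project QD, module Mvp: mean value inequality for harmonic forms -/

set_option autoImplicit false

namespace Pool.Agent.Helper86.QD

open Helper62.LH Helper62.DSH Helper58.QD MeasureTheory Set Filter Topology
open scoped ContDiff ENNReal

private theorem tau_cont_Mvp {n : ℕ} {w : E n → ℝ} (hw : Continuous w) (hpos : ∀ y, 0 < w y) {T : ℝ}
    (hT : 0 < T) : Continuous (fun y => tau T (w y)) := by
  unfold tau
  refine (continuous_const.mul hw).div (continuous_const.add hw) ?_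
  intro y
  have := hpos y
  positivity

private theorem tau_nonneg_Mvp {T s : ℝ} (hT : 0 < T) (hs : 0 < s) : 0 ≤ tau T s := by
  unfold tau
  positivity

private theorem alg_Mvp {K K' r p G lam J I J2 I2 C1 A d v : ℝ} (hK : 1 ≤ K) (hr : 0 < r)
    (hp : 0 ≤ p) (hG : G = (C1 / d) ^ 2) (hlam : lam ≤ A / d ^ 2) (hA : 0 ≤ A)
    (hK' : K' = K * (C1 ^ 2 + A + 1)) (hJ0 : 0 ≤ J) (hJI : J ≤ I) (hJ20 : 0 ≤ J2) (hJI2 : J2 ≤ I2)
    (hv : 0 ≤ v) :
    K * r ^ 2 * p * ((G + lam) * J + 0) + K * v * J2 ^ 2 ≤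
      K' * r ^ 2 * p / d ^ 2 * I + K' * v * I2 ^ 2 := by
  have h1 : G + lam ≤ (C1 ^ 2 + A + 1) / d ^ 2 := by
    rw [hG, div_pow]
    have h2 : (C1 ^ 2 + A + 1) / d ^ 2 = C1 ^ 2 / d ^ 2 + A / d ^ 2 + 1 / d ^ 2 := by ring
    have h3 : 0 ≤ 1 / d ^ 2 := by positivity
    rw [h2]
    linarith
  have hI0 : 0 ≤ I := hJ0.trans hJI
  have h4 : (G + lam) * J ≤ (C1 ^ 2 + A + 1) / d ^ 2 * I := by
    refine (mul_le_mul_of_nonneg_right h1 hJ0).trans ?_
    exact mul_le_mul_of_nonneg_left hJI (by positivity)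
  have h5 : K * r ^ 2 * p * ((G + lam) * J + 0) ≤ K' * r ^ 2 * p / d ^ 2 * I := by
    rw [add_zero]
    refine (mul_le_mul_of_nonneg_left h4 (by positivity)).trans (le_of_eq ?_)
    rw [hK']
    ring
  have h6 : J2 ^ 2 ≤ I2 ^ 2 := by
    have := hJ20.trans hJI2
    gcongr
  have hKK : K ≤ K' := by
    rw [hK']
    have : 0 ≤ K * (C1 ^ 2 + A) := by positivity
    linarith
  have h7 : K * v * J2 ^ 2 ≤ K' * v * I2 ^ 2 := by
    have h8 : K * v ≤ K' * v := mul_le_mul_of_nonneg_right hKK hv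
    have h9 : 0 ≤ K' * v := by
      have : 0 ≤ K' := by linarith
      positivity
    exact (mul_le_mul_of_nonneg_right h8 (by positivity)).trans (mul_le_mul_of_nonneg_left h6 h9)
  exact add_le_add h5 h7

theorem hMvp : StMet → StDlv → TNrm → SBal → SCba → SCmi → SItm → SSup → SMvp := by
  intro hMet hDlv hNrm hBal hCba hCmi hItm hSup n m g Γ F G hg hΓ hF hC hS A hA
  obtain ⟨-, -, -, hdxx', -, -⟩ := hMet n g hg
  obtain ⟨C1, hC1, hcba⟩ := hCba n g hg hC
  obtain ⟨K, hK1, hcmi⟩ := hCmi n g Γ hg hΓ hC hS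
  obtain ⟨hvs, hvpos, -⟩ := hDlv n g Γ hg hΓ
  have bal := hBal n g Γ hg hΓ hC
  have hvcont : Continuous (vol g) := hvs.continuous
  set K' : ℝ := K * (C1 ^ 2 + A + 1) with hK'
  have hK'1 : 1 ≤ K' := by
    have h1 : 0 ≤ K * (C1 ^ 2 + A) := by positivity
    have h2 : K' = K * (C1 ^ 2 + A) + K := by rw [hK']; ring
    linarith
  obtain ⟨C, hCpos, hitm⟩ := hItm n K' hK'1
  refine ⟨C, hCpos, ?_⟩
  intro P hP hAl hd hδ x ρ hρ hW
  -- continuous functions are integrable on balls
  have hint : ∀ f : E n → ℝ, Continuous f → ∀ r, IntegrableOn f (Ba g x r) := by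
    intro f hf r
    have h1 : (0 : ℝ) < max r 1 := lt_max_of_lt_right one_pos
    obtain ⟨χ, hχc, -, hχ1, -⟩ := hcba x (max r 1) (max r 1 + 1) h1 (by linarith)
    have h2 : Ba g x r ⊆ tsupport χ := by
      intro y hy
      have h3 : dg g x y < r := hy
      have h4 := hχ1 y (h3.trans_le (le_max_left _ _))
      refine subset_tsupport χ ?_
      rw [Function.mem_support, h4]
      exact one_ne_zero
    exact (hf.continuousOn.integrableOn_compact hχc.2).mono_set h2
  have hq0 : ∀ y, 0 ≤ q2 (P y) := fun y => ((hNrm n (m + 1)).1 (P y)).1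
  have hqs : ContDiff ℝ ∞ (fun y => q2 (P y)) := by
    unfold q2 ipt
    refine ContDiff.div_const (ContDiff.sum fun I _ => ?_) _
    have := contDiff_pi.1 hP I
    exact this.mul this
  have hvb : 0 < vb g x ρ := (bal x).2.2.1 ρ hρ
  have hop := (bal x).1
  have hdxx := hdxx' x
  have hmono : ∀ t, t ≤ ρ → Ba g x t ⊆ Ba g x ρ := fun t ht y hy => lt_of_lt_of_le hy ht
  -- main estimate for every `ε`
  have main : ∀ ε > 0, q2 (P x) ≤ C / vb g x ρ * (∫ y in Ba g x ρ, q2 (P y) * vol g y) + C * ε := by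
    intro ε hε
    have hwpos : ∀ y, 0 < q2 (P y) + ε := fun y => by have := hq0 y; linarith
    have hws : ContDiff ℝ ∞ (fun y => q2 (P y) + ε) := hqs.add contDiff_const
    have hwc : Continuous (fun y => q2 (P y) + ε) := hws.continuous
    have hcmb : Cmb g x ρ K' (fun y => q2 (P y) + ε) := by
      intro T p s t r hT hp hs hst ht hr hrρ
      obtain ⟨χ, hχc, hχ01, hχ1, hχsup, hχgs⟩ := hcba x s t hs hst
      have hsupρ : tsupport χ ⊆ Ba g x ρ := hχsup.trans (hmono t ht)
      have hsub := hSup n m g Γ F G hg hΓ hF P hP hAl hd hδ (Ba g x ρ) (A / ρ ^ 2)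
        (by positivity) hW ε T (2 * p - 1) χ hε hT hχc hsupρ
      have h1 := hcmi x ρ r (A / ρ ^ 2) ((C1 / (t - s)) ^ 2) T 0 p (fun y => q2 (P y) + ε) χ hr hrρ
        (by positivity) hT le_rfl hp hws hwpos hχc hχ01 hsupρ hχgs hsub
      have hfc : ∀ q : ℕ, Continuous (fun y => tau T (q2 (P y) + ε) ^ q * (q2 (P y) + ε) * vol g y) :=
        fun q => (((tau_cont_Mvp hwc hwpos hT).pow q).mul hwc).mul hvcont
      have hf0 : ∀ (q : ℕ) (y : E n), 0 ≤ tau T (q2 (P y) + ε) ^ q * (q2 (P y) + ε) * vol g y := by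
        intro q y
        have h2 := tau_nonneg_Mvp hT (hwpos y)
        have h3 := hwpos y
        have h4 := hvpos y
        positivity
      -- step 1
      have h2 : ∫ y in Ba g x s, tau T (q2 (P y) + ε) ^ (2 * p - 1) * (q2 (P y) + ε) * vol g y ≤
          ∫ y, χ y ^ 2 * tau T (q2 (P y) + ε) ^ (2 * p - 1) * (q2 (P y) + ε) * vol g y := by
        have h3 : ∫ y in Ba g x s, tau T (q2 (P y) + ε) ^ (2 * p - 1) * (q2 (P y) + ε) * vol g y =
            ∫ y in Ba g x s, χ y ^ 2 * tau T (q2 (P y) + ε) ^ (2 * p - 1) * (q2 (P y) + ε) *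
              vol g y := by
          refine setIntegral_congr_fun (hop s).measurableSet ?_
          intro y hy
          have h4 := hχ1 y hy
          simp only [h4]
          ring
        rw [h3]
        refine setIntegral_le_integral ?_ ?_
        · refine Continuous.integrable_of_hasCompactSupport ?_ ?_
          · exact ((((hχc.1.continuous.pow 2).mul ((tau_cont_Mvp hwc hwpos hT).pow _)).mul hwc).mul
              hvcont)
          · refine hχc.2.mono ?_
            intro y hy h0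
            apply hy
            simp only [h0]
            ring
        · refine ae_of_all _ ?_
          intro y
          have h4 := hf0 (2 * p - 1) y
          have h5 : χ y ^ 2 * tau T (q2 (P y) + ε) ^ (2 * p - 1) * (q2 (P y) + ε) * vol g y =
              χ y ^ 2 * (tau T (q2 (P y) + ε) ^ (2 * p - 1) * (q2 (P y) + ε) * vol g y) := by ring
          show (0 : ℝ) ≤ χ y ^ 2 * tau T (q2 (P y) + ε) ^ (2 * p - 1) * (q2 (P y) + ε) * vol g y
          rw [h5]
          exact mul_nonneg (sq_nonneg _) h4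
      -- step 2
      have h3 : ∀ q : ℕ, 0 ≤ ∫ y in tsupport χ, tau T (q2 (P y) + ε) ^ q * (q2 (P y) + ε) * vol g y :=
        fun q => integral_nonneg (hf0 q)
      have h4 : ∀ q : ℕ, ∫ y in tsupport χ, tau T (q2 (P y) + ε) ^ q * (q2 (P y) + ε) * vol g y ≤
          ∫ y in Ba g x t, tau T (q2 (P y) + ε) ^ q * (q2 (P y) + ε) * vol g y := by
        intro q
        refine setIntegral_mono_set (hint _ (hfc q) t) (ae_of_all _ (hf0 q)) ?_
        exact hχsup.eventuallyLE
      have hts : 0 < t - s := by linarith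
      have h5 : A / ρ ^ 2 ≤ A / (t - s) ^ 2 := by
        have h6 : t - s ≤ ρ := by linarith
        have h7 : (t - s) ^ 2 ≤ ρ ^ 2 := by gcongr
        exact div_le_div_of_nonneg_left hA (by positivity) h7
      have h6 := alg_Mvp (K := K) (K' := K') (r := r) (p := (p : ℝ)) (G := (C1 / (t - s)) ^ 2)
        (lam := A / ρ ^ 2) (J := ∫ y in tsupport χ, tau T (q2 (P y) + ε) ^ (2 * p - 1) *
          (q2 (P y) + ε) * vol g y) (I := ∫ y in Ba g x t, tau T (q2 (P y) + ε) ^ (2 * p - 1) *
          (q2 (P y) + ε) * vol g y) (J2 := ∫ y in tsupport χ, tau T (q2 (P y) + ε) ^ (p - 1) *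
          (q2 (P y) + ε) * vol g y) (I2 := ∫ y in Ba g x t, tau T (q2 (P y) + ε) ^ (p - 1) *
          (q2 (P y) + ε) * vol g y) (C1 := C1) (A := A) (d := t - s) (v := (ρ / r) ^ n / vb g x ρ)
        hK1 hr (by positivity) rfl h5 hA hK' (h3 _) (h4 _) (h3 _) (h4 _) (by positivity)
      have h7 : K * (ρ / r) ^ n / vb g x ρ = K * ((ρ / r) ^ n / vb g x ρ) := by ring
      have h8 : K' * (ρ / r) ^ n / vb g x ρ = K' * ((ρ / r) ^ n / vb g x ρ) := by ring
      rw [h7] at h1
      rw [h8]
      exact (h2.trans h1).trans h6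
    have h9 := hitm g Γ hg hΓ hC x ρ (fun y => q2 (P y) + ε) hρ (fun y => (hwpos y).le)
      hwc.aestronglyMeasurable (hint _ (hwc.mul hvcont) ρ) hcmb
    -- the inequality holds at `x`
    have h10 : q2 (P x) + ε ≤ C / vb g x ρ * ∫ z in Ba g x ρ, (q2 (P z) + ε) * vol g z := by
      by_contra hcon
      push Not at hcon
      have hopen : IsOpen (Ba g x (ρ / 2) ∩
          {y | C / vb g x ρ * (∫ z in Ba g x ρ, (q2 (P z) + ε) * vol g z) < q2 (P y) + ε}) :=
        (hop _).inter (isOpen_lt continuous_const hwc)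
      have hdx : dg g x x < ρ / 2 := by
        rw [hdxx]
        positivity
      have hne : (Ba g x (ρ / 2) ∩
          {y | C / vb g x ρ * (∫ z in Ba g x ρ, (q2 (P z) + ε) * vol g z) < q2 (P y) + ε}).Nonempty :=
        ⟨x, hdx, hcon⟩
      have hmeas := hopen.measure_pos volume hne
      rw [ae_restrict_iff' (hop _).measurableSet] at h9
      have h13 : volume (Ba g x (ρ / 2) ∩
          {y | C / vb g x ρ * (∫ z in Ba g x ρ, (q2 (P z) + ε) * vol g z) < q2 (P y) + ε}) = 0 := by
        refine measure_mono_null ?_ h9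
        rintro y ⟨hy1, hy2⟩ hy3
        exact absurd (hy3 hy1) (not_le.2 hy2)
      exact absurd h13 hmeas.ne'
    have h14 : ∫ z in Ba g x ρ, (q2 (P z) + ε) * vol g z =
        (∫ z in Ba g x ρ, q2 (P z) * vol g z) + ε * vb g x ρ := by
      have h15 : ∀ z, (q2 (P z) + ε) * vol g z = q2 (P z) * vol g z + ε * vol g z := fun z => by ring
      have e1 : ∫ z in Ba g x ρ, (q2 (P z) * vol g z + ε * vol g z) =
          (∫ z in Ba g x ρ, q2 (P z) * vol g z) + ∫ z in Ba g x ρ, ε * vol g z :=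
        integral_add (hint _ (hqs.continuous.mul hvcont) ρ) (hint _ (continuous_const.mul hvcont) ρ)
      simp only [h15]
      rw [e1, integral_const_mul, (bal x).2.2.2.1 ρ]
    rw [h14] at h10
    have h16 : C / vb g x ρ * ((∫ z in Ba g x ρ, q2 (P z) * vol g z) + ε * vb g x ρ) =
        C / vb g x ρ * (∫ z in Ba g x ρ, q2 (P z) * vol g z) + C * ε := by
      have := hvb.ne'
      field_simp
    rw [h16] at h10
    linarith
  refine le_of_forall_pos_le_add ?_
  intro δ hδ
  have h1 := main (δ / C) (by positivity)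
  have h2 : C * (δ / C) = δ := by field_simp
  rw [h2] at h1
  exact h1

end Pool.Agent.Helper86.QD
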